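import Pool.Agent.H101.HB.Bas

/-!
# Project HB-uniform (helper101): the first inner product `S_I1`
-/

set_option autoImplicit false

open Complex MeasureTheory Filter Topology Set

namespace Pool.Agent.H27.HB

open Pool.Agent.Y763.HB Pool.Agent.H101.HB

theorem log_nat (n : ℕ) : Complex.log (n : ℂ) = ((Real.log n : ℝ) : ℂ) := by
  rw [Complex.ofReal_log (Nat.cast_nonneg n), Complex.ofReal_natCast]

theorem pw {m n : ℕ} (hm : 1 ≤ m) (hn : 1 ≤ n) (δ t : ℝ) :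
    (n : ℂ) ^ (-(ln δ t)) * (m : ℂ) ^ (-(((1 + 2 * δ : ℝ) : ℂ) - ln δ t)) =
      (((n : ℝ) ^ (-(1 / 2 + δ)) * (m : ℝ) ^ (-(1 / 2 + δ)) : ℝ) : ℂ) *
        cexp (I * ((t * Real.log ((m : ℝ) / n) : ℝ) : ℂ)) := by
  have hm0 : (m : ℂ) ≠ 0 := by exact_mod_cast (by omega : m ≠ 0)
  have hn0 : (n : ℂ) ≠ 0 := by exact_mod_cast (by omega : n ≠ 0)
  have hmr : (0 : ℝ) < m := by exact_mod_cast (by omega : 0 < m)
  have hnr : (0 : ℝ) < n := by exact_mod_cast (by omega : 0 < n)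
  rw [cpow_def_of_ne_zero hn0, cpow_def_of_ne_zero hm0, log_nat, log_nat,
    Real.rpow_def_of_pos hnr, Real.rpow_def_of_pos hmr, ofReal_mul, ofReal_exp, ofReal_exp,
    ← Complex.exp_add, ← Complex.exp_add, ← Complex.exp_add, Real.log_div hmr.ne' hnr.ne']
  congr 1
  unfold ln
  push_cast
  ring

/-- the functions of the inner product -/
noncomputable def hh (P : Polynomial ℝ) (T : ℝ) (N : ℕ) (δ : ℝ) (f : ℂ → ℂ) (s : ℂ) : ℂ :=
  f s * A N (((1 + 2 * δ : ℝ) : ℂ) - s) * W P T (1 / 2 + δ) s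

theorem Ac_bd (N : ℕ) : ∃ C : ℝ, 0 < C ∧ ∀ δ : ℝ, 0 < δ → δ ≤ 1 / 4 → ∀ s : ℂ, 1 / 2 ≤ s.re →
    s.re ≤ 2 → ‖A N (((1 + 2 * δ : ℝ) : ℂ) - s)‖ ≤ C := by
  obtain ⟨C, hC, h⟩ := A_bd N
  refine ⟨C, hC, fun δ hδ hδ1 s h1 h2 => h _ ?_ ?_⟩
  · rw [sub_re, ofReal_re]; linarith
  · rw [sub_re, ofReal_re]; linarith

theorem hh_diff (P : Polynomial ℝ) (T : ℝ) (N : ℕ) (δ : ℝ) {f : ℂ → ℂ} {s : ℂ}
    (hf : DifferentiableAt ℂ f s) : DifferentiableAt ℂ (hh P T N δ f) s := by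
  unfold hh
  have h1 : DifferentiableAt ℂ (fun s : ℂ => A N (((1 + 2 * δ : ℝ) : ℂ) - s)) s :=
    DifferentiableAt.comp (g := A N) s (A_diff N _) (by fun_prop)
  exact (hf.mul h1).mul (W_diff P T _ s)

theorem hh_bd (P : Polynomial ℝ) (N : ℕ) : ∃ K : ℝ, 0 < K ∧ ∀ (T δ : ℝ), 1 ≤ T → 0 < δ →
    δ ≤ 1 / 4 → ∀ (f : ℂ → ℂ) (s : ℂ), 1 / 2 ≤ s.re → s.re ≤ 2 →
    ‖hh P T N δ f s‖ ≤ ‖f s‖ * (K * Real.exp (-(s.im ^ 2 / T ^ 2))) := by
  obtain ⟨CA, hCA, hA⟩ := Ac_bd N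
  obtain ⟨CW, hCW, hW⟩ := W_bd P
  refine ⟨CA * CW, by positivity, fun T δ hT hδ hδ1 f s h1 h2 => ?_⟩
  unfold hh
  rw [norm_mul, norm_mul, mul_assoc]
  refine mul_le_mul_of_nonneg_left ?_ (norm_nonneg _)
  rw [mul_assoc]
  refine mul_le_mul (hA δ hδ hδ1 s h1 h2) (hW T _ hT s ?_) (norm_nonneg _) hCA.le
  rw [abs_le]
  constructor <;> linarith

/-- moving the line -/
theorem hh_shift (P : Polynomial ℝ) (N : ℕ) {T δ : ℝ} (hT : 1 ≤ T) (hδ : 0 < δ) (hδ1 : δ ≤ 1 / 4)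
    {f : ℂ → ℂ} {C : ℝ} {k : ℕ} (hC : 0 ≤ C)
    (hf : ∀ s : ℂ, 1 / 2 + δ ≤ s.re → s.re ≤ 2 → DifferentiableAt ℂ f s)
    (hb : ∀ s : ℂ, 1 / 2 + δ ≤ s.re → s.re ≤ 2 → ‖f s‖ ≤ C * (1 + |s.im|) ^ k) :
    ∫ t : ℝ, hh P T N δ f (ln δ t) = ∫ t : ℝ, hh P T N δ f (((2 : ℝ) : ℂ) + t * I) := by
  obtain ⟨K, hK, h⟩ := hh_bd P N
  refine shiftG (f := hh P T N δ f) (a := 1 / 2 + δ) (b := 2) (C := C * K) (T := T) (k := k)
    (by linarith) (by linarith) (by positivity) (fun s h1 h2 => hh_diff P T N δ (hf s h1 h2)) ?_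
  intro s h1 h2
  refine (h T δ hT hδ hδ1 f s (by linarith) h2).trans ?_
  have := mul_le_mul_of_nonneg_right (hb s h1 h2)
    (show 0 ≤ K * Real.exp (-(s.im ^ 2 / T ^ 2)) by positivity)
  refine this.trans (le_of_eq ?_)
  ring

theorem hh_int (P : Polynomial ℝ) (N : ℕ) {T δ x : ℝ} (hT : 1 ≤ T) (hδ : 0 < δ) (hδ1 : δ ≤ 1 / 4)
    (hx : 1 / 2 + δ ≤ x) (hx2 : x ≤ 2) {f : ℂ → ℂ} {C : ℝ} {k : ℕ} (hC : 0 ≤ C)
    (hf : ∀ s : ℂ, 1 / 2 + δ ≤ s.re → s.re ≤ 2 → DifferentiableAt ℂ f s)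
    (hb : ∀ s : ℂ, 1 / 2 + δ ≤ s.re → s.re ≤ 2 → ‖f s‖ ≤ C * (1 + |s.im|) ^ k) :
    Integrable (fun t : ℝ => hh P T N δ f ((x : ℂ) + t * I)) := by
  obtain ⟨K, hK, h⟩ := hh_bd P N
  have hre : ∀ y : ℝ, ((x : ℂ) + y * I).re = x := fun y => by simp
  have him : ∀ y : ℝ, ((x : ℂ) + y * I).im = y := fun y => by simp
  refine intG (C := C * K) (T := T) (k := k) (by linarith) (by positivity)
    (fun y => hh_diff P T N δ (hf _ (by rw [hre]; linarith) (by rw [hre]; linarith))) ?_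
  intro y
  refine (h T δ hT hδ hδ1 f _ (by rw [hre]; linarith) (by rw [hre]; linarith)).trans ?_
  have := mul_le_mul_of_nonneg_right (hb ((x : ℂ) + y * I) (by rw [hre]; linarith)
    (by rw [hre]; linarith)) (show 0 ≤ K * Real.exp (-(y ^ 2 / T ^ 2)) by positivity)
  rw [him] at this ⊢
  refine this.trans (le_of_eq ?_)
  ring

/-- the terms -/
noncomputable def fn (n : ℕ) (s : ℂ) : ℂ := (mu n : ℂ) * (n : ℂ) ^ (-s)

theorem fn_zero (s : ℂ) : fn 0 s = 0 := by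
  unfold fn mu
  simp

theorem fn_diff (n : ℕ) : Differentiable ℂ (fn n) := by
  rcases Nat.eq_zero_or_pos n with rfl | hn
  · have : fn 0 = fun _ => 0 := funext fn_zero
    rw [this]
    exact differentiable_const _
  · unfold fn
    have hn0 : (n : ℂ) ≠ 0 := by exact_mod_cast hn.ne'
    exact (Differentiable.const_cpow (by fun_prop) (Or.inl hn0)).const_mul _

theorem fn_norm (n : ℕ) (s : ℂ) : ‖fn n s‖ ≤ (n : ℝ) ^ (-s.re) := by
  rcases Nat.eq_zero_or_pos n with rfl | hn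
  · rw [fn_zero, norm_zero]
    exact Real.rpow_nonneg (Nat.cast_nonneg _) _
  · unfold fn
    rw [norm_mul, norm_cpow_nat hn, norm_real, Real.norm_eq_abs, neg_re]
    calc |mu n| * (n : ℝ) ^ (-s.re) ≤ 1 * (n : ℝ) ^ (-s.re) :=
          mul_le_mul_of_nonneg_right (mu_abs n) (by positivity)
      _ = _ := one_mul _

theorem fn_le_one (n : ℕ) {s : ℂ} (hs : 0 ≤ s.re) : ‖fn n s‖ ≤ 1 := by
  rcases Nat.eq_zero_or_pos n with rfl | hn
  · rw [fn_zero, norm_zero]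
    exact zero_le_one
  · refine (fn_norm n s).trans ?_
    exact Real.rpow_le_one_of_one_le_of_nonpos (by exact_mod_cast hn) (by linarith)

theorem gauss_int {T : ℝ} (hT : 1 ≤ T) : Integrable (fun t : ℝ => Real.exp (-(t ^ 2 / T ^ 2))) := by
  have h := integrable_exp_neg_mul_sq (b := 1 / T ^ 2) (by positivity)
  refine h.congr (Eventually.of_forall fun t => ?_)
  simp only []
  congr 1
  ring

/-- the expansion on the line `Re s = 2`, moved back -/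
theorem hasSum_hh (P : Polynomial ℝ) (N : ℕ) {T δ : ℝ} (hT : 1 ≤ T) (hδ : 0 < δ)
    (hδ1 : δ ≤ 1 / 4) (hG : Good (1 / 2 + δ)) :
    HasSum (fun n : ℕ => ∫ t : ℝ, hh P T N δ (fn n) (ln δ t)) (∫ t : ℝ, hh P T N δ iz (ln δ t)) := by
  obtain ⟨C, k, hC, hb⟩ := iz_bd hG (by linarith)
  rw [hh_shift P N hT hδ hδ1 (f := iz) (C := C) (k := k) hC.le
    (fun s h1 h2 => iz_diff hG h1 (by linarith)) (fun s h1 h2 => hb s h1 (by linarith))]
  have hfb : ∀ n : ℕ, ∀ s : ℂ, 1 / 2 + δ ≤ s.re → s.re ≤ 2 → ‖fn n s‖ ≤ 1 * (1 + |s.im|) ^ 0 := by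
    intro n s h1 h2
    rw [pow_zero, mul_one]
    exact fn_le_one n (by linarith)
  have e1 : ∀ n : ℕ, ∫ t : ℝ, hh P T N δ (fn n) (ln δ t) =
      ∫ t : ℝ, hh P T N δ (fn n) (((2 : ℝ) : ℂ) + t * I) := fun n =>
    hh_shift P N hT hδ hδ1 (f := fn n) (C := 1) (k := 0) zero_le_one
      (fun s _ _ => fn_diff n s) (hfb n)
  simp only [e1]
  have hre : ∀ y : ℝ, (((2 : ℝ) : ℂ) + y * I).re = 2 := fun y => by simp
  have him : ∀ y : ℝ, (((2 : ℝ) : ℂ) + y * I).im = y := fun y => by simp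
  have e2 : ∀ t : ℝ, hh P T N δ iz (((2 : ℝ) : ℂ) + t * I) =
      ∑' n : ℕ, hh P T N δ (fn n) (((2 : ℝ) : ℂ) + t * I) := by
    intro t
    have h1 := iz_sum (s := ((2 : ℝ) : ℂ) + t * I) (by rw [hre]; norm_num)
    have h2 := (h1.mul_right (A N (((1 + 2 * δ : ℝ) : ℂ) - (((2 : ℝ) : ℂ) + t * I)))).mul_right
      (W P T (1 / 2 + δ) (((2 : ℝ) : ℂ) + t * I))
    exact h2.tsum_eq.symm
  simp only [e2]
  have hint : ∀ n : ℕ, Integrable (fun t : ℝ => hh P T N δ (fn n) (((2 : ℝ) : ℂ) + t * I)) :=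
    fun n => hh_int P N hT hδ hδ1 (x := 2) (by linarith) le_rfl (C := 1) (k := 0) zero_le_one
      (fun s _ _ => fn_diff n s) (hfb n)
  refine hasSum_integral_of_summable_integral_norm hint ?_
  obtain ⟨K, hK, h⟩ := hh_bd P N
  have hsum : Summable (fun n : ℕ => (n : ℝ) ^ (-(2 : ℝ)) *
      ∫ t : ℝ, K * Real.exp (-(t ^ 2 / T ^ 2))) := by
    refine Summable.mul_right _ ?_
    rw [Real.summable_nat_rpow]
    norm_num
  refine Summable.of_nonneg_of_le (fun n => integral_nonneg fun t => norm_nonneg _) (fun n => ?_)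
    hsum
  rw [← integral_const_mul]
  refine integral_mono (hint n).norm (((gauss_int hT).const_mul K).const_mul _) fun t => ?_
  have h1 := h T δ hT hδ hδ1 (fn n) (((2 : ℝ) : ℂ) + t * I) (by rw [hre]; norm_num)
    (by rw [hre])
  have h2 := fn_norm n (((2 : ℝ) : ℂ) + t * I)
  rw [hre] at h2
  rw [him] at h1
  exact h1.trans (mul_le_mul_of_nonneg_right h2 (by positivity))

/-- the integral over the critical line of the term `n` -/
theorem term_eq (P : Polynomial ℝ) (N : ℕ) {T δ : ℝ} (hT : 1 ≤ T) {n : ℕ} (hn : 1 ≤ n)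
    (hph : Integrable (fun t : ℝ => ((ph P (t / T) : ℝ) : ℂ))) :
    ∫ t : ℝ, hh P T N δ (fn n) (ln δ t) = ∑ m ∈ Finset.Icc 1 N,
      (((mu n * mu m) * ((n : ℝ) ^ (-(1 / 2 + δ)) * (m : ℝ) ^ (-(1 / 2 + δ))) : ℝ) : ℂ) *
        ∫ t : ℝ, cexp (I * ((t * Real.log ((m : ℝ) / n) : ℝ) : ℂ)) * ((ph P (t / T) : ℝ) : ℂ) := by
  have hI : ∀ w : ℝ, Integrable (fun t : ℝ =>
      cexp (I * ((t * w : ℝ) : ℂ)) * ((ph P (t / T) : ℝ) : ℂ)) := by
    intro w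
    refine hph.norm.mono' ?_ (Eventually.of_forall fun t => ?_)
    · refine AEStronglyMeasurable.mul ?_ hph.aestronglyMeasurable
      exact (by fun_prop : Continuous fun t : ℝ => cexp (I * ((t * w : ℝ) : ℂ))).aestronglyMeasurable
    · rw [norm_mul, mul_comm I, Complex.norm_exp_ofReal_mul_I, one_mul]
  rw [← Finset.sum_congr rfl fun m _ => integral_const_mul _ _,
    ← integral_finsetSum _ fun m _ => (hI _).const_mul _]
  congr 1
  funext t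
  unfold hh
  rw [W_ln]
  unfold A fn
  rw [Finset.mul_sum, Finset.sum_mul]
  refine Finset.sum_congr rfl fun m hm => ?_
  have hm1 := (Finset.mem_Icc.1 hm).1
  have := pw hm1 hn δ t
  push_cast at this ⊢
  linear_combination ((mu n : ℂ) * (mu m : ℂ) * ((ph P (t / T) : ℝ) : ℂ)) * this

theorem ph_int (P : Polynomial ℝ) {T : ℝ} (hT : 1 ≤ T) :
    Integrable (fun t : ℝ => ((ph P (t / T) : ℝ) : ℂ)) := by
  obtain ⟨CW, hCW, hW⟩ := W_bd P
  have := intG (f := W P T 0) (x := 0) (C := CW) (T := T) (k := 0) (by linarith) hCW.le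
    (fun y => W_diff P T 0 _) (fun y => by
      have := hW T 0 hT (((0 : ℝ) : ℂ) + y * I) (by simp)
      simpa using this)
  refine this.congr (Eventually.of_forall fun t => ?_)
  exact W_line P T 0 t

theorem t_I1 : S_I1 := by
  intro hFT hOFF P ε hε hε1
  obtain ⟨C, J, hC, hJ, hF⟩ := hFT P
  filter_upwards [hOFF J ε (by linarith) hε hε1, eventually_ge_atTop (1 : ℝ),
    eventually_ge_atTop (2 * C)] with T hT1 hT hTC
  intro N hN δ hδ hδ1 hG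
  have hT0 : 0 < T := by linarith
  have hph := ph_int P hT
  have hNT : (N : ℝ) ≤ T := by
    refine hN.trans ?_
    have := Real.rpow_le_rpow_of_exponent_le hT (show 1 - ε ≤ 1 by linarith)
    rwa [Real.rpow_one] at this
  have e1 : ∀ t : ℝ, iz (ln δ t) * (starRingEnd ℂ) (A N (ln δ t)) * ((ph P (t / T) : ℝ) : ℂ) =
      hh P T N δ iz (ln δ t) := by
    intro t
    unfold hh
    rw [W_ln, A_conj, ln_conj]
  simp only [e1]
  have hsum := hasSum_hh P N hT hδ hδ1 hG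
  set Φ0 : ℝ := T * ∫ x : ℝ, ph P x with hΦ0
  -- the main term
  have hmain : HasSum (fun n : ℕ => if n ∈ Finset.Icc 1 N then
      (((mu n ^ 2 * (n : ℝ) ^ (-(1 + 2 * δ))) * Φ0 : ℝ) : ℂ) else 0)
      (((T * (∫ x : ℝ, ph P x) * Sd N δ : ℝ) : ℂ)) := by
    have h1 : (((T * (∫ x : ℝ, ph P x) * Sd N δ : ℝ) : ℂ)) = ∑ n ∈ Finset.Icc 1 N,
        (if n ∈ Finset.Icc 1 N then
          (((mu n ^ 2 * (n : ℝ) ^ (-(1 + 2 * δ))) * Φ0 : ℝ) : ℂ) else 0) := by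
      rw [Finset.sum_ite_mem, Finset.inter_self, ← ofReal_sum]
      congr 1
      unfold Sd
      rw [← hΦ0, mul_comm, Finset.sum_mul]
    rw [h1]
    exact hasSum_sum_of_ne_finset_zero fun n hn => if_neg hn
  have hdiff := hsum.sub hmain
  rw [← hdiff.tsum_eq]
  have hz := (hasSum_zeta_two.mul_left ((N : ℝ) * C / T ^ 2))
  have hfin : (N : ℝ) * C / T ^ 2 * (Real.pi ^ 2 / 6) ≤ 1 := by
    have hpi : Real.pi ^ 2 / 6 ≤ 2 := by nlinarith [Real.pi_lt_d2, Real.pi_pos]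
    have h1 : (N : ℝ) * C / T ^ 2 ≤ 1 / 2 := by
      rw [div_le_iff₀ (by positivity)]
      nlinarith [mul_le_mul hNT hTC (by positivity) hT0.le]
    calc (N : ℝ) * C / T ^ 2 * (Real.pi ^ 2 / 6) ≤ (1 / 2) * 2 :=
          mul_le_mul h1 hpi (by positivity) (by norm_num)
      _ = 1 := by norm_num
  refine (tsum_of_norm_bounded hz fun n => ?_).trans hfin
  rcases Nat.eq_zero_or_pos n with rfl | hn
  · have h0 : ∀ t : ℝ, hh P T N δ (fn 0) (ln δ t) = 0 := fun t => by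
      unfold hh
      rw [fn_zero, zero_mul, zero_mul]
    simp [h0]
  rw [term_eq P N hT hn hph]
  have hmain2 : (if n ∈ Finset.Icc 1 N then
      (((mu n ^ 2 * (n : ℝ) ^ (-(1 + 2 * δ))) * Φ0 : ℝ) : ℂ) else 0) =
      ∑ m ∈ Finset.Icc 1 N, (if n = m then
        (((mu n ^ 2 * (n : ℝ) ^ (-(1 + 2 * δ))) * Φ0 : ℝ) : ℂ) else 0) := by
    rw [Finset.sum_ite_eq]
  rw [hmain2, ← Finset.sum_sub_distrib]
  have hnr : (0 : ℝ) < n := by exact_mod_cast hn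
  have hb : ∀ m ∈ Finset.Icc 1 N, ‖(((mu n * mu m) * ((n : ℝ) ^ (-(1 / 2 + δ)) *
      (m : ℝ) ^ (-(1 / 2 + δ))) : ℝ) : ℂ) *
        (∫ t : ℝ, cexp (I * ((t * Real.log ((m : ℝ) / n) : ℝ) : ℂ)) * ((ph P (t / T) : ℝ) : ℂ)) -
      (if n = m then (((mu n ^ 2 * (n : ℝ) ^ (-(1 + 2 * δ))) * Φ0 : ℝ) : ℂ) else 0)‖ ≤
      C * (1 / (T ^ 2 * (n : ℝ) ^ 2)) := by
    intro m hm
    have hm1 := (Finset.mem_Icc.1 hm).1
    have hmr : (0 : ℝ) < m := by exact_mod_cast hm1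
    by_cases h : n = m
    · subst h
      rw [if_pos rfl]
      have h2 : (∫ t : ℝ, cexp (I * ((t * Real.log ((n : ℝ) / n) : ℝ) : ℂ)) *
          ((ph P (t / T) : ℝ) : ℂ)) = ((Φ0 : ℝ) : ℂ) := by
        rw [div_self hnr.ne', Real.log_one]
        simp only [mul_zero, ofReal_zero, Complex.exp_zero, one_mul]
        exact (hF T hT0).1
      have h3 : (n : ℝ) ^ (-(1 / 2 + δ)) * (n : ℝ) ^ (-(1 / 2 + δ)) = (n : ℝ) ^ (-(1 + 2 * δ)) := by
        rw [← Real.rpow_add hnr]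
        congr 1
        ring
      rw [h2, h3, ← ofReal_mul, ← ofReal_sub]
      have h4 : mu n * mu n * (n : ℝ) ^ (-(1 + 2 * δ)) * Φ0 -
          mu n ^ 2 * (n : ℝ) ^ (-(1 + 2 * δ)) * Φ0 = 0 := by ring
      rw [h4, ofReal_zero, norm_zero]
      positivity
    · rw [if_neg h, sub_zero, norm_mul, norm_real, Real.norm_eq_abs]
      have h1 := (hF T hT0).2 (Real.log ((m : ℝ) / n))
      have h2 := hT1 N hN m hm n hn h
      have h3 : |mu n * mu m * ((n : ℝ) ^ (-(1 / 2 + δ)) * (m : ℝ) ^ (-(1 / 2 + δ)))| ≤ 1 := by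
        rw [abs_mul, abs_mul]
        have a1 := mu_abs n
        have a2 := mu_abs m
        have a3 : (n : ℝ) ^ (-(1 / 2 + δ)) ≤ 1 :=
          Real.rpow_le_one_of_one_le_of_nonpos (by exact_mod_cast hn) (by linarith)
        have a4 : (m : ℝ) ^ (-(1 / 2 + δ)) ≤ 1 :=
          Real.rpow_le_one_of_one_le_of_nonpos (by exact_mod_cast hm1) (by linarith)
        have a5 : |(n : ℝ) ^ (-(1 / 2 + δ)) * (m : ℝ) ^ (-(1 / 2 + δ))| ≤ 1 := by
          rw [abs_of_nonneg (by positivity)]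
          exact mul_le_one₀ a3 (by positivity) a4
        exact mul_le_one₀ (mul_le_one₀ a1 (abs_nonneg _) a2) (abs_nonneg _) a5
      calc _ ≤ 1 * (C * T * Real.exp (-(T ^ 2 * Real.log ((m : ℝ) / n) ^ 2 / (4 * J)))) :=
            mul_le_mul h3 h1 (norm_nonneg _) zero_le_one
        _ = C * (T * Real.exp (-(T ^ 2 * Real.log ((m : ℝ) / n) ^ 2 / (4 * J)))) := by ring
        _ ≤ _ := mul_le_mul_of_nonneg_left h2 hC.le
  refine (norm_sum_le_of_le _ hb).trans (le_of_eq ?_)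
  rw [Finset.sum_const, Nat.card_Icc, nsmul_eq_mul, Nat.add_sub_cancel]
  field_simp

end Pool.Agent.H27.HB
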